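import Pool.Agent.Helper30.EL.St

/-!
# Project EL (MP_2d2425_nt): module RT, the roots modulo `p`
-/

set_option autoImplicit false

noncomputable section

namespace Pool.Agent.Helper42.EL

open Finset Filter Topology ArithmeticFunction
open Pool.Agent.Helper30.EL
open Pool.Agent.Helper9.TW (gm Qs fm StC9)
open Pool.Agent.Helper18.TR (StBonf StFLmain StLevel)
open Pool.Agent.Helper15.AB (Th StDB StMT)
open Pool.Agent.Helper60.GP (II IsB JJ Err StBVc StPNT StBump StM2)
open Pool.Agent.Helper48.BK (StSW)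
open Pool.Agent.Helper93.KS (bq Pq SW bmq idq ejq mg Gb Vq AD UQ LQ HU HL StBXQ StT1 StDK StCEL StBMQ StSQR StDUA)

private lemma empty_of (n c p : ℕ) (hp : p.Prime) (hc : Nat.Coprime c (2 * n)) (h : p ∣ 2 * c) :
    rt n c p = ∅ := by
  unfold rt
  rw [Finset.filter_eq_empty_iff]
  rintro r - ⟨-, hv⟩
  unfold vv at hv
  rcases (Nat.Prime.dvd_mul hp).1 h with h1 | h1
  · have h2 : p = 2 := (Nat.prime_dvd_prime_iff_eq hp Nat.prime_two).1 h1
    subst h2
    have hodd : c % 2 = 1 := by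
      have h3 : Nat.Coprime c 2 := Nat.Coprime.coprime_mul_right_right hc
      rcases Nat.mod_two_eq_zero_or_one c with h4 | h4
      · exfalso
        have h5 : 2 ∣ Nat.gcd c 2 := Nat.dvd_gcd (Nat.dvd_of_mod_eq_zero h4) (dvd_refl 2)
        rw [h3] at h5
        omega
      · exact h4
    have h6 : (r ^ 2 + r) % 2 = 0 := by
      have : r ^ 2 + r = r * (r + 1) := by ring
      rw [this]
      exact Nat.even_iff.1 (Nat.even_mul_succ_self r)
    have h7 : (2 * n + c * (r ^ 2 + r + 1)) % 2 = 1 := by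
      rw [Nat.add_mod, Nat.mul_mod c, Nat.add_mod (r ^ 2 + r) 1, h6, hodd]
      omega
    omega
  · have h2 : p ∣ c * (r ^ 2 + r + 1) := Dvd.dvd.mul_right h1 _
    have h3 : p ∣ 2 * n := (Nat.dvd_add_left h2).1 hv
    have h4 : p ∣ Nat.gcd c (2 * n) := Nat.dvd_gcd h1 h3
    rw [hc] at h4
    exact hp.one_lt.ne' (Nat.dvd_one.1 h4)

private lemma card_le (n c p : ℕ) (hp : p.Prime) (h : ¬ p ∣ 2 * c) :
    (((rt n c p).card : ℕ) : ℤ) ≤ 1 + jacobiSym (-(dd n c : ℤ)) p := by
  have : Fact p.Prime := ⟨hp⟩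
  have h2 : p ≠ 2 := fun h2 => h (by rw [h2]; exact Dvd.intro c rfl)
  have h2c : (2 : ZMod p) * (c : ZMod p) ≠ 0 := by
    intro h3
    have h4 : ((2 * c : ℕ) : ZMod p) = 0 := by push_cast; exact h3
    rw [ZMod.natCast_eq_zero_iff] at h4
    exact h h4
  have h1 := legendreSym.card_sqrts p h2 (-(dd n c : ℤ))
  rw [jacobiSym.legendreSym.to_jacobiSym] at h1
  have key : (rt n c p).card ≤
      ({x : ZMod p | x ^ 2 = ((-(dd n c : ℤ) : ℤ) : ZMod p)}.toFinset).card := by
    refine Finset.card_le_card_of_injOn (fun r => (c : ZMod p) * (2 * (r : ZMod p) + 1)) ?_ ?_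
    · intro r hr
      have hr' : r ∈ rt n c p := hr
      unfold rt at hr'
      rw [Finset.mem_filter] at hr'
      have h3 : ((vv n c r : ℕ) : ZMod p) = 0 := by
        rw [ZMod.natCast_eq_zero_iff]
        exact hr'.2.2
      unfold vv at h3
      push_cast at h3
      show (c : ZMod p) * (2 * (r : ZMod p) + 1) ∈
        (({x : ZMod p | x ^ 2 = ((-(dd n c : ℤ) : ℤ) : ZMod p)}.toFinset : Finset (ZMod p)) :
          Set (ZMod p))
      rw [Set.coe_toFinset]
      change ((c : ZMod p) * (2 * (r : ZMod p) + 1)) ^ 2 = ((-(dd n c : ℤ) : ℤ) : ZMod p)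
      unfold dd
      push_cast
      linear_combination 4 * (c : ZMod p) * h3
    · intro r hr s hs h3
      have hr' : r ∈ rt n c p := hr
      have hs' : s ∈ rt n c p := hs
      unfold rt at hr' hs'
      rw [Finset.mem_filter, Finset.mem_range] at hr' hs'
      have h3' : (c : ZMod p) * (2 * (r : ZMod p) + 1) = (c : ZMod p) * (2 * (s : ZMod p) + 1) := h3
      have h4 : (2 * (c : ZMod p)) * ((r : ZMod p) - s) = 0 := by linear_combination h3'
      have h5 : (r : ZMod p) = (s : ZMod p) := sub_eq_zero.mp ((mul_eq_zero.mp h4).resolve_left h2c)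
      rw [ZMod.natCast_eq_natCast_iff'] at h5
      rwa [Nat.mod_eq_of_lt hr'.1, Nat.mod_eq_of_lt hs'.1] at h5
  have key' : (((rt n c p).card : ℕ) : ℤ) ≤
      (({x : ZMod p | x ^ 2 = ((-(dd n c : ℤ) : ℤ) : ZMod p)}.toFinset).card : ℤ) := by
    exact_mod_cast key
  linarith

theorem hRT : StRT := by
  intro n c p hp hc
  have hle : jacobiSym (-(dd n c : ℤ)) p ≤ 1 := by
    rcases jacobiSym.trichotomy (-(dd n c : ℤ)) p with h | h | h <;> rw [h] <;> norm_num
  have hge : -1 ≤ jacobiSym (-(dd n c : ℤ)) p := by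
    rcases jacobiSym.trichotomy (-(dd n c : ℤ)) p with h | h | h <;> rw [h] <;> norm_num
  by_cases h : p ∣ 2 * c
  · have h1 := empty_of n c p hp hc h
    refine ⟨by rw [h1]; simp, fun _ => h1, fun _ => ?_⟩
    rw [h1, Finset.card_empty]
    push_cast
    linarith
  · have h1 := card_le n c p hp h
    refine ⟨?_, fun h2 => absurd h2 h, fun _ => h1⟩
    have : (((rt n c p).card : ℕ) : ℤ) ≤ 2 := by linarith
    exact_mod_cast this

end Pool.Agent.Helper42.EL
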